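import Pool.Agent.T6.H2.FR.Iso

/-!
# Subsets of the rough arguments of a system of linear forms: isolation and one-coloured progressions (helper2)

Adapted from `T6/H2/FR/Iso.lean`.
-/

set_option autoImplicit false

namespace Pool.Agent.T6.H2.CL

open Finset Filter
open scoped Polynomial
open Pool.Agent.X32.Uni Pool.Agent.T6.H2.PT Pool.Agent.T6.H2.FR

variable {k : ℕ}

open Classical in
/-- few rough arguments are not isolated -/
theorem noniso (k E : ℕ) (hk : 1 ≤ k) (β' : ℝ) (hβ'0 : 0 < β') (η : ℝ) (hη : 0 < η) :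
    ∃ ε : ℝ, 0 < ε ∧ ∀ A' : ℕ, ∃ X₀ : ℕ, ∀ X : ℕ, X₀ ≤ X → ∀ (a b : Fin k → ℤ), (∀ l, a l ≠ 0) →
      (∀ l, |a l| ≤ E) → (∀ l, |b l| ≤ (X : ℤ) ^ A') → ∀ y : ℝ, (X : ℝ) ^ β' ≤ y → ∀ A B : ℕ, B ≤ X →
      (X : ℝ) ^ (1 / 2 : ℝ) ≤ (B : ℝ) - A → ∀ G : Finset ℕ, G ⊆ RL a b ((X : ℝ) ^ β') A B →
      (((G.filter (fun n => ¬ IsoAt a b (ε * Real.log X) y n)).card : ℕ) : ℝ) ≤
        η * ((B : ℝ) - A) * VL a b X := by
  classical
  obtain ⟨K₁, hK₁, HI⟩ := iso_far k E hk β' hβ'0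
  have hk0 : (0 : ℝ) < k := by exact_mod_cast hk
  obtain ⟨ε, hε⟩ : ∃ ε : ℝ, ε = η / (K₁ * k) := ⟨_, rfl⟩
  have hε0 : 0 < ε := by rw [hε]; positivity
  have hεK : k * (K₁ * ε) = η := by rw [hε]; field_simp
  refine ⟨ε, hε0, fun A' => ?_⟩
  obtain ⟨X₁, HI⟩ := HI ε hε0 A'
  have h5 : ∀ᶠ X : ℕ in atTop, (E : ℝ) ≤ (X : ℝ) ^ β' :=
    ((tendsto_rpow_atTop hβ'0).comp tendsto_natCast_atTop_atTop).eventually_ge_atTop _
  obtain ⟨X₄, h4⟩ := eventually_atTop.1 h5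
  refine ⟨X₁ + X₄ + 3, fun X hX a b ha haE hbX y hy' A B hB hhalf G hG => ?_⟩
  have hlog : 0 < Real.log X := Real.log_pos (by exact_mod_cast (by omega : 1 < X))
  obtain ⟨w, hw⟩ : ∃ w : ℝ, w = ε * Real.log X := ⟨_, rfl⟩
  have hw0 : 0 ≤ w := by rw [hw]; positivity
  rw [← hw]
  obtain ⟨N, hN⟩ : ∃ N : ℕ, N = ⌊w⌋₊ := ⟨_, rfl⟩
  have e2 : G.filter (fun n => ¬ IsoAt a b w y n) ⊆
      (univ : Finset (Fin k)).biUnion (fun l =>
        ((Icc (-(N : ℤ)) N).filter (fun c => ∀ u, a u * (b l + c) - a l * b u ≠ 0)).biUnion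
        (fun c => RL (Fin.cons (a l) a : Fin (k + 1) → ℤ) (Fin.cons (b l + c) b : Fin (k + 1) → ℤ)
          ((X : ℝ) ^ β') A B)) := by
    intro n hn
    rw [mem_filter] at hn
    obtain ⟨hnG, hn3⟩ := hn
    have hn1 := hG hnG
    unfold RL at hn1
    rw [mem_filter] at hn1
    unfold IsoAt at hn3
    push Not at hn3
    obtain ⟨l, z, hz1, hz2, hz3⟩ := hn3
    have hval : ∀ u, ∀ q : ℕ, q.Prime → (q : ℝ) ≤ (X : ℝ) ^ β' → ¬ (q : ℤ) ∣ a u * (n : ℤ) + b u :=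
      fun u q hq hqy => hn1.2 u q hq hqy
    have hzq : ∀ q : ℕ, q.Prime → (q : ℝ) ≤ (X : ℝ) ^ β' → ¬ (q : ℤ) ∣ z := by
      intro q hq hqy hd
      exact hz3 q hq (hqy.trans hy') hd
    rw [mem_biUnion]
    refine ⟨l, mem_univ _, ?_⟩
    rw [mem_biUnion]
    refine ⟨z - (a l * (n : ℤ) + b l), ?_, ?_⟩
    · rw [mem_filter, mem_Icc]
      have e3 : ((z - (a l * (n : ℤ) + b l)).natAbs : ℝ) ≤ w := by
        have : (((z - (a l * (n : ℤ) + b l)).natAbs : ℕ) : ℝ) = |(z : ℝ) - ((a l * (n : ℤ) + b l : ℤ) : ℝ)| := by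
          rw [Nat.cast_natAbs]
          push_cast
          rfl
        rw [this]
        exact hz1
      have e4 : (z - (a l * (n : ℤ) + b l)).natAbs ≤ N := by
        rw [hN]
        exact Nat.le_floor e3
      refine ⟨⟨by omega, by omega⟩, fun u he => ?_⟩
      have e5 : a u * z = a l * (a u * (n : ℤ) + b u) := by
        have : b l + (z - (a l * (n : ℤ) + b l)) = z - a l * n := by ring
        rw [this] at he
        linarith
      rcases prop_eq (h4 X (by omega)) (ha u) (ha l) (haE u) (haE l) e5 hzq (hval u) with h | h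
      · exact (hz2 u).1 h
      · exact (hz2 u).2 h
    · unfold RL
      rw [mem_filter]
      refine ⟨hn1.1, fun u => ?_⟩
      refine Fin.cases ?_ (fun u => ?_) u
      · intro p hp hpy hd
        rw [Fin.cons_zero, Fin.cons_zero] at hd
        have e3 : a l * (n : ℤ) + (b l + (z - (a l * (n : ℤ) + b l))) = z := by ring
        rw [e3] at hd
        exact hzq p hp hpy hd
      · intro p hp hpy hd
        rw [Fin.cons_succ, Fin.cons_succ] at hd
        exact hval u p hp hpy hd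
  have e3 : (((G.filter (fun n => ¬ IsoAt a b w y n)).card : ℕ) : ℝ) ≤
      ∑ l : Fin k, ∑ c ∈ (Icc (-(N : ℤ)) N).filter (fun c => ∀ u, a u * (b l + c) - a l * b u ≠ 0),
        ((RL (Fin.cons (a l) a : Fin (k + 1) → ℤ) (Fin.cons (b l + c) b : Fin (k + 1) → ℤ)
          ((X : ℝ) ^ β') A B).card : ℝ) := by
    have e4 := (card_le_card e2).trans card_biUnion_le
    have e5 : ∑ l : Fin k, (((Icc (-(N : ℤ)) N).filter (fun c => ∀ u, a u * (b l + c) - a l * b u ≠ 0)).biUnion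
        (fun c => RL (Fin.cons (a l) a : Fin (k + 1) → ℤ) (Fin.cons (b l + c) b : Fin (k + 1) → ℤ)
          ((X : ℝ) ^ β') A B)).card ≤
        ∑ l : Fin k, ∑ c ∈ (Icc (-(N : ℤ)) N).filter (fun c => ∀ u, a u * (b l + c) - a l * b u ≠ 0),
        (RL (Fin.cons (a l) a : Fin (k + 1) → ℤ) (Fin.cons (b l + c) b : Fin (k + 1) → ℤ)
          ((X : ℝ) ^ β') A B).card := sum_le_sum fun l _ => card_biUnion_le
    exact_mod_cast e4.trans e5
  refine e3.trans ?_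
  calc ∑ l : Fin k, ∑ c ∈ (Icc (-(N : ℤ)) N).filter (fun c => ∀ u, a u * (b l + c) - a l * b u ≠ 0),
        ((RL (Fin.cons (a l) a : Fin (k + 1) → ℤ) (Fin.cons (b l + c) b : Fin (k + 1) → ℤ)
          ((X : ℝ) ^ β') A B).card : ℝ)
      ≤ ∑ _l : Fin k, K₁ * ε * ((B : ℝ) - A) * VL a b X := by
        apply sum_le_sum
        intro l _
        have e6 := HI X (by omega) a b (a l) (b l) ha haE hbX (ha l) (haE l) (hbX l) A B hB hhalf
        rw [← hw, ← hN] at e6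
        exact e6
    _ = k * (K₁ * ε) * ((B : ℝ) - A) * VL a b X := by simp; ring
    _ = η * ((B : ℝ) - A) * VL a b X := by rw [hεK]

/-- the lower bound for the product -/
theorem vl_low (k : ℕ) (hk : 1 ≤ k) : ∃ c : ℝ, 0 < c ∧ ∀ (a b : Fin k → ℤ) (X : ℕ), 2 ≤ X → (∀ l, a l ≠ 0) → AdmL a b →
    c / Real.log X ^ k ≤ VL a b X := by
  obtain ⟨d0, hd0⟩ : ∃ d0, k = d0 + 1 := ⟨k - 1, by omega⟩
  obtain ⟨cV, hcV, hV⟩ := V_low d0
  refine ⟨cV, hcV, fun a b X hX ha hadm => ?_⟩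
  have hdeg : ∀ l, (lf a b l).natDegree = 1 := fun l => lf_deg _ _ l (ha l)
  have h1 := hV k (lf a b) X hX (loc_lf hadm) (by
    simp only [hdeg]
    simp [← hd0])
  rw [V_lf, ← hd0] at h1
  exact h1

/-- one-coloured progressions in a set of rough arguments -/
theorem cover (k t : ℕ) (hk : 1 ≤ k) (ht : 1 ≤ t) (s r : ℕ) (θ δ : ℝ) (hs : 1 ≤ s) (hθ : 0 < θ) (hδ : 0 < δ) :
    ∃ c X₀ : ℕ, ∀ X : ℕ, X₀ ≤ X → ∀ (a b : Fin k → ℤ), (∀ l, a l ≠ 0) → AdmL a b → ∀ A B : ℕ, B ≤ X →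
      θ * X ≤ (B : ℝ) - A → ∀ G : Finset ℕ, G ⊆ Ioc A B →
      (∀ x ∈ G, ∀ l, ∀ q : ℕ, q.Prime → (q : ℤ) ∣ a l * (x : ℤ) + b l → (X : ℝ) ^ (1 / (t : ℝ)) < q) →
      ∀ χ : ℕ → Fin r, ∃ P : Finset (ℕ × ℕ),
        (∀ z ∈ P, 1 ≤ z.2 ∧ (z.2 : ℝ) ≤ Real.log X ^ c ∧
          ∀ m < s, z.1 + m * z.2 ∈ G ∧ χ (z.1 + m * z.2) = χ z.1) ∧
        (P : Set (ℕ × ℕ)).PairwiseDisjoint (apSet s) ∧
        (((G \ P.biUnion (apSet s)).card : ℕ) : ℝ) ≤ δ * ((B : ℝ) - A) * VL a b X := by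
  classical
  obtain ⟨cV, hcV, hV⟩ := vl_low k hk
  obtain ⟨c, X₂, h2⟩ := prog_dense k (max t 2) (le_max_right _ _) s θ (δ / (r + 1)) cV hθ (by positivity) hcV
  refine ⟨c, X₂ + 3, fun X hX a b ha hadm A B hB hAB G hG hGr χ => ?_⟩
  have hX2 : X₂ ≤ X := by omega
  have hX0 : (0 : ℝ) < X := by exact_mod_cast (by omega : 0 < X)
  have hlog : 0 < Real.log X := Real.log_pos (by exact_mod_cast (by omega : 1 < X))
  have h3 := hV a b X (by omega) ha hadm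
  have hV0 : 0 < VL a b X := lt_of_lt_of_le (by positivity) h3
  have hBA0 : 0 < (B : ℝ) - A := lt_of_lt_of_le (by positivity) hAB
  have hdeg : ∀ l, (lf a b l).natDegree = 1 := fun l => lf_deg _ _ l (ha l)
  obtain ⟨P, p1, p2, p3⟩ := part_col s r hs (Real.log X ^ c) (δ / (r + 1) * ((B : ℝ) - A) * VL a b X)
    (by positivity) G (by
      intro T hT hTc
      refine h2 X hX2 k (lf a b) (by
        simp only [hdeg]
        simp) (loc_lf hadm) (by
        rw [V_lf]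
        exact h3) A B hB hAB T ?_ ?_ (by
        rw [V_lf]
        exact hTc)
      · exact hT.trans hG
      · intro x hx _ l q hq hd
        rw [lf_eval] at hd
        refine lt_of_le_of_lt ?_ (hGr x (hT hx) l q hq hd)
        apply Real.rpow_le_rpow_of_exponent_le (by exact_mod_cast (by omega : 1 ≤ X))
        have ht0 : (0 : ℝ) < t := by exact_mod_cast ht
        apply one_div_le_one_div_of_le ht0
        exact_mod_cast le_max_left t 2) χ
  refine ⟨P, p1, p2, p3.le.trans ?_⟩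
  have h6 : (r : ℝ) * (δ / (r + 1) * ((B : ℝ) - A) * VL a b X) =
      (r / (r + 1)) * (δ * ((B : ℝ) - A) * VL a b X) := by
    field_simp
  rw [h6]
  have h7 : (r : ℝ) / (r + 1) ≤ 1 := by
    rw [div_le_one (by positivity)]
    linarith
  exact mul_le_of_le_one_left (by positivity) h7

end Pool.Agent.T6.H2.CL
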