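import Pool.Agent.R498.MP.PU7
import Pool.Agent.T6.H2.CL.Sub
import Pool.Agent.T6.H2.PR.Cls

/-!
# Clusters of primes with far rough companions: the lower bound (helper2)

Let `a_l n + b_l`, `l < g`, be linear forms, one of which is `n`, the others with arbitrarily large constant terms. We count
the `n` for which many of the numbers `n + W i`, `i < 2 ^ κ`, are primes and all the numbers `a_l (n + W i) + b_l` are
free of small prime factors. The lower bound of the right order of magnitude is `Pool.Agent.R498.MP.coreW` (starting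
files).
-/

set_option autoImplicit false

namespace Pool.Agent.T6.H2.CL

open Finset Filter
open scoped Polynomial
open Pool.Agent.X32.Uni Pool.Agent.T6.H2.PT Pool.Agent.T6.H2.FR
open Pool.Agent.R498.MP (SysW Win gp coreW exbW')
open Pool.Agent.R498.MT (Vp)
open Pool.Agent.Y677.RSZ (rt rhoT)
open Pool.Agent.TH423.SH (PS)

variable {g : ℕ}

/-- the slopes of the forms `a_l (n + W i) + b_l` -/
def sysA (Q : ℕ) (a : Fin g → ℤ) : Fin (g * Q) → ℤ := fun u => a (finProdFinEquiv.symm u).1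

/-- the constant terms of the forms `a_l (n + W i) + b_l` -/
def sysB (W Q : ℕ) (a b : Fin g → ℤ) : Fin (g * Q) → ℤ := fun u =>
  b (finProdFinEquiv.symm u).1 + a (finProdFinEquiv.symm u).1 * ((W * ((finProdFinEquiv.symm u).2 : ℕ) : ℕ) : ℤ)

theorem sys_val (W Q : ℕ) (a b : Fin g → ℤ) (u : Fin (g * Q)) (n : ℤ) :
    sysA Q a u * n + sysB W Q a b u =
      a (finProdFinEquiv.symm u).1 * (n + ((W * ((finProdFinEquiv.symm u).2 : ℕ) : ℕ) : ℤ)) + b (finProdFinEquiv.symm u).1 := by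
  unfold sysA sysB
  ring

theorem sys_val' (W Q : ℕ) (a b : Fin g → ℤ) (l : Fin g) (i : Fin Q) (n : ℤ) :
    sysA Q a (finProdFinEquiv (l, i)) * n + sysB W Q a b (finProdFinEquiv (l, i)) =
      a l * (n + ((W * (i : ℕ) : ℕ) : ℤ)) + b l := by
  rw [sys_val, Equiv.symm_apply_apply]

/-- the product of the forms -/
def FF (a b : Fin g → ℤ) (n : ℤ) : ℤ := ∏ l, (a l * n + b l)

theorem sysW (a b : Fin g → ℤ) (ha : ∀ l, a l ≠ 0) (hadm : AdmL a b) : SysW g (FF a b) where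
  per p hp n := by
    rw [← ZMod.intCast_zmod_eq_zero_iff_dvd]
    unfold FF
    push_cast
    simp
  root p hp := by
    have h1 : rt (FF a b) p = om (lf a b) p := by
      rw [om_lf]
      rfl
    rw [h1]
    refine ⟨?_, om_lt (loc_lf hadm) hp⟩
    have h2 := om_le (loc_lf hadm) hp
    have hdeg : ∀ l, (lf a b l).natDegree = 1 := fun l => lf_deg _ _ l (ha l)
    simp only [hdeg] at h2
    simpa using h2

theorem rhoT_le (W Q b₀ : ℕ) (a b : Fin g → ℤ) {p : ℕ} (hp : p.Prime) (hpW : ¬ p ∣ W) :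
    rhoT (FF a b) W b₀ (fun i : Fin Q => (i : ℕ)) p ≤ omL (sysA Q a) (sysB W Q a b) p := by
  classical
  unfold rhoT omL
  apply Finset.card_le_card_of_injOn (fun r => (W * r + b₀) % p)
  · intro r hr
    rw [Finset.mem_coe, mem_filter] at hr
    obtain ⟨hr1, i, hi⟩ := hr
    rw [Finset.mem_coe, mem_filter, mem_range]
    refine ⟨Nat.mod_lt _ hp.pos, ?_⟩
    unfold FF at hi
    obtain ⟨l, -, hl⟩ := (Nat.prime_iff_prime_int.1 hp).exists_mem_finset_dvd hi
    have h1 : (p : ℤ) ∣ sysA Q a (finProdFinEquiv (l, i)) * (((W * r + b₀) % p : ℕ) : ℤ) +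
        sysB W Q a b (finProdFinEquiv (l, i)) := by
      rw [sys_val']
      have h2 : (p : ℤ) ∣ ((W * r + b₀ : ℕ) : ℤ) - (((W * r + b₀) % p : ℕ) : ℤ) := by
        have := Nat.div_add_mod (W * r + b₀) p
        refine ⟨(((W * r + b₀) / p : ℕ) : ℤ), ?_⟩
        have h3 : ((p * ((W * r + b₀) / p) + (W * r + b₀) % p : ℕ) : ℤ) = ((W * r + b₀ : ℕ) : ℤ) := by
          exact_mod_cast this
        push_cast at h3 ⊢
        linarith
      have h4 : a l * ((((W * r + b₀) % p : ℕ) : ℤ) + ((W * (i : ℕ) : ℕ) : ℤ)) + b l =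
          (a l * ((W * (r + (i : ℕ)) + b₀ : ℕ) : ℤ) + b l) -
            a l * (((W * r + b₀ : ℕ) : ℤ) - (((W * r + b₀) % p : ℕ) : ℤ)) := by
        push_cast
        ring
      rw [h4]
      exact dvd_sub hl (h2.mul_left _)
    exact h1.trans (Finset.dvd_prod_of_mem _ (mem_univ _))
  · intro r hr r' hr' h
    rw [Finset.mem_coe, mem_filter, mem_range] at hr hr'
    have h1 : W * r + b₀ ≡ W * r' + b₀ [MOD p] := h
    have h2 : W * r ≡ W * r' [MOD p] := Nat.ModEq.add_right_cancel' _ h1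
    have h3 : r ≡ r' [MOD p] := Nat.ModEq.cancel_left_of_coprime ((Nat.Prime.coprime_iff_not_dvd hp).2 hpW) h2
    exact Nat.ModEq.eq_of_lt_of_lt h3 hr.1 hr'.1

theorem VL_le_Vp (W Q b₀ z X : ℕ) (a b : Fin g → ℤ) (hz : z ≤ X) :
    VL (sysA Q a) (sysB W Q a b) X ≤ Vp (FF a b) W b₀ z (fun i : Fin Q => (i : ℕ)) := by
  classical
  unfold VL Vp
  have hsub : PS W z ⊆ (Icc 1 X).filter Nat.Prime := by
    intro p hp
    unfold PS at hp
    rw [mem_filter, mem_Icc] at hp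
    rw [mem_filter, mem_Icc]
    exact ⟨⟨hp.1.1, hp.1.2.trans hz⟩, hp.2.1⟩
  have h0 : ∀ p ∈ (Icc 1 X).filter Nat.Prime, 0 ≤ 1 - (omL (sysA Q a) (sysB W Q a b) p : ℝ) / p :=
    fun p hp => fac_nonneg _ _ p (mem_filter.1 hp).2
  have h1 : ∀ p ∈ (Icc 1 X).filter Nat.Prime, 1 - (omL (sysA Q a) (sysB W Q a b) p : ℝ) / p ≤ 1 := by
    intro p hp
    have : (0 : ℝ) ≤ (omL (sysA Q a) (sysB W Q a b) p : ℝ) / p := by positivity
    linarith
  rw [← Finset.prod_sdiff hsub]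
  have h2 : ∏ p ∈ (Icc 1 X).filter Nat.Prime \ PS W z, (1 - (omL (sysA Q a) (sysB W Q a b) p : ℝ) / p) ≤ 1 :=
    Finset.prod_le_one (fun p hp => h0 p (Finset.mem_sdiff.1 hp).1) (fun p hp => h1 p (Finset.mem_sdiff.1 hp).1)
  have h3 : ∏ p ∈ PS W z, (1 - (omL (sysA Q a) (sysB W Q a b) p : ℝ) / p) ≤
      ∏ p ∈ PS W z, (1 - (rhoT (FF a b) W b₀ (fun i : Fin Q => (i : ℕ)) p : ℝ) / p) := by
    apply Finset.prod_le_prod (fun p hp => h0 p (hsub hp))
    intro p hp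
    unfold PS at hp
    rw [mem_filter] at hp
    have h4 := rhoT_le W Q b₀ a b hp.2.1 hp.2.2
    have h5 : (rhoT (FF a b) W b₀ (fun i : Fin Q => (i : ℕ)) p : ℝ) ≤ omL (sysA Q a) (sysB W Q a b) p := by
      exact_mod_cast h4
    have hp0 : (0 : ℝ) < p := by exact_mod_cast hp.2.1.pos
    have := div_le_div_of_nonneg_right h5 hp0.le
    linarith
  have h6 : 0 ≤ ∏ p ∈ PS W z, (1 - (omL (sysA Q a) (sysB W Q a b) p : ℝ) / p) :=
    Finset.prod_nonneg fun p hp => h0 p (hsub hp)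
  exact (mul_le_of_le_one_left h6 h2).trans h3

/-- the system of all the forms has no local obstruction -/
theorem adm_sys (W Q : ℕ) (a b : Fin g → ℤ) (hadm : AdmL a b) (hW : ∀ p : ℕ, p.Prime → p ≤ g * Q → p ∣ W) :
    AdmL (sysA Q a) (sysB W Q a b) := by
  classical
  intro p hp
  by_cases hpW : p ∣ W
  · obtain ⟨n, hn⟩ := hadm p hp
    refine ⟨n, fun u hd => ?_⟩
    rw [sys_val] at hd
    apply hn (finProdFinEquiv.symm u).1
    have h1 : (p : ℤ) ∣ ((W * ((finProdFinEquiv.symm u).2 : ℕ) : ℕ) : ℤ) :=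
      Int.natCast_dvd_natCast.2 (hpW.mul_right _)
    have h2 : a (finProdFinEquiv.symm u).1 * n + b (finProdFinEquiv.symm u).1 =
        (a (finProdFinEquiv.symm u).1 * (n + ((W * ((finProdFinEquiv.symm u).2 : ℕ) : ℕ) : ℤ)) +
          b (finProdFinEquiv.symm u).1) - a (finProdFinEquiv.symm u).1 *
            ((W * ((finProdFinEquiv.symm u).2 : ℕ) : ℕ) : ℤ) := by ring
    rw [h2]
    exact dvd_sub hd (h1.mul_left _)
  · have hgp : g * Q < p := by
      by_contra hcon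
      exact hpW (hW p hp (by omega))
    -- replace the forms with a slope divisible by `p` by `n`-independent ones
    obtain ⟨n₀, hn₀⟩ := hadm p hp
    obtain ⟨n, hn⟩ := Pool.Agent.T6.H2.PR.adm_big
      (fun u : Fin (g * Q) => if (p : ℤ) ∣ sysA Q a u then 1 else sysA Q a u)
      (fun u : Fin (g * Q) => if (p : ℤ) ∣ sysA Q a u then 0 else sysB W Q a b u) p hp (by
        intro u
        split_ifs with h
        · intro h1
          have := Int.le_of_dvd one_pos h1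
          have := hp.two_le
          omega
        · exact h) hgp
    refine ⟨n, fun u hd => ?_⟩
    by_cases h : (p : ℤ) ∣ sysA Q a u
    · -- the constant term is not divisible by `p`
      have h1 : (p : ℤ) ∣ sysB W Q a b u := by
        have := dvd_sub hd (h.mul_right n)
        rwa [add_sub_cancel_left] at this
      unfold sysB at h1
      have h2 : (p : ℤ) ∣ a (finProdFinEquiv.symm u).1 := h
      have h3 : (p : ℤ) ∣ b (finProdFinEquiv.symm u).1 := (Int.dvd_add_left (h2.mul_right _)).1 h1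
      exact hn₀ (finProdFinEquiv.symm u).1 (dvd_add (h2.mul_right _) h3)
    · have h1 := hn u
      rw [if_neg h, if_neg h] at h1
      exact h1 hd

open Classical in
/-- the arguments in `(X / 2, X]` with rough values and more than `m` primes -/
noncomputable def RC (W Q m : ℕ) (a b : Fin g → ℤ) (y : ℝ) (X : ℕ) : Finset ℕ :=
  (RL (sysA Q a) (sysB W Q a b) y (X / 2) X).filter (fun n =>
    m < ((univ : Finset (Fin Q)).filter (fun i : Fin Q => (n + W * (i : ℕ)).Prime)).card)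

/-- **the lower bound** -/
theorem low (g m : ℕ) (hg : 1 ≤ g) : ∃ κ W t : ℕ, 1 ≤ W ∧ 1 ≤ t ∧ (∀ p : ℕ, p.Prime → p ≤ g * 2 ^ κ → p ∣ W) ∧
    ∃ c : ℝ, 0 < c ∧ ∃ X₀ : ℕ, ∀ X : ℕ, X₀ ≤ X → ∀ a b : Fin g → ℤ, (∀ l, a l ≠ 0) → AdmL a b →
      (∃ l, a l = 1 ∧ b l = 0) →
      c * X * VL (sysA (2 ^ κ) a) (sysB W (2 ^ κ) a b) X ≤
        ((RC W (2 ^ κ) m a b ((X : ℝ) ^ (1 / (t : ℝ))) X).card : ℝ) := by
  classical
  obtain ⟨κ, W, hW0, hWsq, hWp, hgW, ε₁, c, hε, hε24, hc, HC⟩ := coreW g m hg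
  obtain ⟨t, ht⟩ := exists_nat_gt (2 / ε₁)
  have ht0 : (0 : ℝ) < t := lt_trans (by positivity) ht
  have ht1 : 1 ≤ t := by exact_mod_cast ht0
  have htε : 1 / (t : ℝ) ≤ ε₁ / 2 := by
    rw [div_le_iff₀ ht0]
    rw [div_lt_iff₀ hε] at ht
    linarith
  refine ⟨κ, W, t, hW0, ht1, fun p hp h => hWp p hp (by omega), c / (4 * W), by positivity, ?_⟩
  have hinj : Function.Injective (fun i : Fin (2 ^ κ) => (i : ℕ)) := Fin.val_injective
  choose Y0 hY0 using fun b₀ => (HC (fun i : Fin (2 ^ κ) => (i : ℕ)) hinj b₀).1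
  refine ⟨(range W).sup Y0 + 20 * W + 5, fun X hX a b ha hadm hid => ?_⟩
  have hS := sysW a b ha hadm
  obtain ⟨b₀, hb₀, hb₀W⟩ := exbW' hS W hW0 hWsq
  have hYb : Y0 b₀ ≤ (range W).sup Y0 := Finset.le_sup (mem_range.2 hb₀)
  obtain ⟨u, hu⟩ : ∃ u : ℕ, u = W * (X / W) := ⟨_, rfl⟩
  obtain ⟨v, hv⟩ : ∃ v : ℕ, v = W * (X / (2 * W)) := ⟨_, rfl⟩
  have hu1 : u + X % W = X := by rw [hu]; exact Nat.div_add_mod X W
  have hu2 : X % W < W := Nat.mod_lt _ hW0
  have hv1 : 2 * v + X % (2 * W) = X := by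
    rw [hv]
    have := Nat.div_add_mod X (2 * W)
    have e : 2 * (W * (X / (2 * W))) = 2 * W * (X / (2 * W)) := by ring
    omega
  have hv2 : X % (2 * W) < 2 * W := Nat.mod_lt _ (by omega)
  obtain ⟨M, hM⟩ : ∃ M : ℕ, M = X / (2 * W) + 1 := ⟨_, rfl⟩
  have hWM : W * M = v + W := by rw [hM, hv]; ring
  have hqM : M + 1 ≤ X / W := by
    by_contra hcon
    have h1 : X / W ≤ M := by omega
    have h2 : u ≤ W * M := by rw [hu]; exact Nat.mul_le_mul_left _ h1
    omega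
  obtain ⟨L, hL⟩ : ∃ L : ℕ, M + L + 1 = X / W := ⟨X / W - 1 - M, by omega⟩
  have hWML : W * (M + L) + W = u := by
    rw [hu, ← hL]
    ring
  obtain ⟨Y, hY⟩ : ∃ Y : ℕ, Y = W * (M + L) := ⟨_, rfl⟩
  have hWL : W * L + W * M = Y := by rw [hY]; ring
  have hML : M + L ≤ Y := by
    rw [hY]
    exact Nat.le_mul_of_pos_left _ hW0
  have hwin : Win W Y M L := by
    refine ⟨?_, ?_, ?_, ?_, hML⟩
    · omega
    · omega
    · omega
    · omega
  have hX0 : (0 : ℝ) < X := by exact_mod_cast (by omega : 0 < X)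
  have hX1 : (1 : ℝ) ≤ X := by exact_mod_cast (by omega : 1 ≤ X)
  have hY1 : (1 : ℝ) ≤ Y := by exact_mod_cast (by omega : 1 ≤ Y)
  have hYX : (Y : ℝ) ≤ X := by exact_mod_cast (by omega : Y ≤ X)
  have hYp1 : 1 ≤ (Y : ℝ) ^ ε₁ := Real.one_le_rpow hY1 hε.le
  obtain ⟨z, hz⟩ : ∃ z : ℕ, z + 1 = ⌈(Y : ℝ) ^ ε₁⌉₊ := by
    have : 1 ≤ ⌈(Y : ℝ) ^ ε₁⌉₊ := Nat.one_le_ceil_iff.2 (by linarith)
    exact ⟨⌈(Y : ℝ) ^ ε₁⌉₊ - 1, by omega⟩
  have hz1 : (z : ℝ) < (Y : ℝ) ^ ε₁ := by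
    have h1 := Nat.ceil_lt_add_one (show (0 : ℝ) ≤ (Y : ℝ) ^ ε₁ by linarith)
    rw [← hz] at h1
    push_cast at h1
    linarith
  have hz2 : (Y : ℝ) ^ ε₁ ≤ z + 1 := by
    have h1 := Nat.le_ceil ((Y : ℝ) ^ ε₁)
    rw [← hz] at h1
    push_cast at h1
    exact h1
  have hzX : z ≤ X := by
    have h1 : (Y : ℝ) ^ ε₁ ≤ (Y : ℝ) ^ (1 : ℝ) := Real.rpow_le_rpow_of_exponent_le hY1 (by linarith)
    rw [Real.rpow_one] at h1
    have h2 : (z : ℝ) ≤ X := by linarith
    exact_mod_cast h2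
  have hFid : ∀ p : ℕ, p.Prime → ∀ n : ℤ, (p : ℤ) ∣ n → (p : ℤ) ∣ FF a b n := by
    intro p _ n hn
    obtain ⟨l, h1, h2⟩ := hid
    refine dvd_trans ?_ (Finset.dvd_prod_of_mem (fun l => a l * n + b l) (mem_univ l))
    rw [h1, h2, one_mul, add_zero]
    exact hn
  obtain ⟨hlow, hVp, -⟩ := hY0 b₀ (FF a b) hS hFid hb₀W Y (by omega) M L z hwin hz1 hz2
  have hroot : (X : ℝ) ^ (1 / (t : ℝ)) < (Y : ℝ) ^ ε₁ := by
    have h1 : (X : ℝ) ^ (1 / (t : ℝ)) ≤ (X : ℝ) ^ (ε₁ / 2) := Real.rpow_le_rpow_of_exponent_le hX1 htε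
    have h2 : (X : ℝ) ^ (ε₁ / 2) = ((X : ℝ) ^ (1 / 2 : ℝ)) ^ ε₁ := by
      rw [← Real.rpow_mul hX0.le]
      congr 1
      ring
    have h3 : (X : ℝ) ^ (1 / 2 : ℝ) < Y := by
      rw [← Real.sqrt_eq_rpow, Real.sqrt_lt' (by linarith)]
      have h4 : (X : ℝ) ≤ 2 * Y := by exact_mod_cast (by omega : X ≤ 2 * Y)
      have h5 : (3 : ℝ) ≤ Y := by exact_mod_cast (by omega : 3 ≤ Y)
      nlinarith
    refine lt_of_le_of_lt h1 ?_
    rw [h2]
    exact Real.rpow_lt_rpow (by positivity) h3 hε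
  have hcard : (gp (FF a b) Y ε₁ W b₀ (fun i : Fin (2 ^ κ) => (i : ℕ)) m M L).card ≤
      (RC W (2 ^ κ) m a b ((X : ℝ) ^ (1 / (t : ℝ))) X).card := by
    apply Finset.card_le_card_of_injOn (fun K => W * K + b₀)
    · intro K hK
      rw [Finset.mem_coe] at hK ⊢
      unfold gp at hK
      rw [mem_filter, mem_Ioc] at hK
      obtain ⟨⟨hK1, hK2⟩, hK3, hK4⟩ := hK
      unfold RC RL
      rw [mem_filter, mem_filter, mem_Ioc]
      have hb1 : W * (M + 1) ≤ W * K := Nat.mul_le_mul_left _ hK1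
      have hb2 : W * K ≤ W * (M + L) := Nat.mul_le_mul_left _ hK2
      have hb3 : W * (M + 1) = W * M + W := by ring
      dsimp only
      refine ⟨⟨⟨by omega, by omega⟩, ?_⟩, ?_⟩
      · intro w q hq hqy hd
        rw [sys_val] at hd
        apply hK3 q hq (lt_of_le_of_lt hqy hroot) (finProdFinEquiv.symm w).2
        unfold FF
        refine dvd_trans ?_ (Finset.dvd_prod_of_mem _ (mem_univ (finProdFinEquiv.symm w).1))
        have e : ((W * K + b₀ : ℕ) : ℤ) + ((W * ((finProdFinEquiv.symm w).2 : ℕ) : ℕ) : ℤ) =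
            ((W * (K + ((finProdFinEquiv.symm w).2 : ℕ)) + b₀ : ℕ) : ℤ) := by
          push_cast
          ring
        rw [e] at hd
        exact hd
      · refine lt_of_lt_of_le hK4 (Finset.card_le_card ?_)
        intro i hi
        rw [mem_filter] at hi ⊢
        refine ⟨mem_univ _, ?_⟩
        have e : W * (K + (i : ℕ)) + b₀ = W * K + b₀ + W * (i : ℕ) := by ring
        rw [← e]
        exact hi.2
    · intro K _ K' _ h
      dsimp only at h
      have h1 : W * K = W * K' := by omega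
      exact Nat.eq_of_mul_eq_mul_left hW0 h1
  have hW0r : (0 : ℝ) < W := by exact_mod_cast hW0
  have hLX : (X : ℝ) / (4 * W) ≤ L := by
    rw [div_le_iff₀ (by positivity)]
    have h1 : X ≤ 4 * (W * L) := by omega
    have h2 : (X : ℝ) ≤ 4 * (W * L) := by exact_mod_cast h1
    linarith
  have hVle := VL_le_Vp W (2 ^ κ) b₀ z X a b hzX
  have hVL0 := VL_nonneg (sysA (2 ^ κ) a) (sysB W (2 ^ κ) a b) X
  calc c / (4 * W) * X * VL (sysA (2 ^ κ) a) (sysB W (2 ^ κ) a b) X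
      = c * ((X / (4 * W)) * VL (sysA (2 ^ κ) a) (sysB W (2 ^ κ) a b) X) := by ring
    _ ≤ c * (L * Vp (FF a b) W b₀ z (fun i : Fin (2 ^ κ) => (i : ℕ))) := by
        apply mul_le_mul_of_nonneg_left _ hc.le
        exact mul_le_mul hLX hVle hVL0 (by positivity)
    _ ≤ _ := hlow
    _ ≤ _ := by exact_mod_cast hcard

end Pool.Agent.T6.H2.CL
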