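import Pool.Agent.T6.H2.CL.Low

/-!
# Isolated clusters of primes with far almost prime companions (helper2)
-/

set_option autoImplicit false

namespace Pool.Agent.T6.H2.CL

open Finset Filter
open scoped Polynomial
open Pool.Agent.X32.Uni Pool.Agent.T6.H2.PT Pool.Agent.T6.H2.FR

variable {g : ℕ}

/-- the systems: `n` is one of the forms, the slopes are at most `E`, the constant terms at most `X ^ A'` -/
structure SysC (g E A' X : ℕ) (a b : Fin g → ℤ) : Prop where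
  a0 : ∀ l, a l ≠ 0
  aE : ∀ l, |a l| ≤ E
  bX : ∀ l, |b l| ≤ (X : ℤ) ^ A'
  adm : AdmL a b
  id : ∃ l, a l = 1 ∧ b l = 0

open Classical in
/-- the good arguments -/
noncomputable def GoodC (W Q m : ℕ) (a b : Fin g → ℤ) (t T X : ℕ) (w y : ℝ) : Finset ℕ :=
  (Ioc (X / 2) X).filter (fun n : ℕ =>
    m < ((univ : Finset (Fin Q)).filter (fun i : Fin Q => (n + W * (i : ℕ)).Prime)).card ∧
    (∀ u, Almost T ((X : ℝ) ^ (1 / (t : ℝ))) (sysA Q a u * (n : ℤ) + sysB W Q a b u)) ∧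
    IsoAt (sysA Q a) (sysB W Q a b) w y n)

/-- few values are `1` or `-1` -/
theorem card_one (k : ℕ) (hk : 1 ≤ k) (a b : Fin k → ℤ) (ha : ∀ l, a l ≠ 0) (S : Finset ℕ)
    (hS : ∀ n ∈ S, ∃ u, |a u * (n : ℤ) + b u| = 1) : S.card ≤ 2 * k := by
  classical
  have h1 : S.card ≤ ((univ : Finset (Fin k)) ×ˢ (univ : Finset Bool)).card := by
    have h2 : ∀ n : ℕ, ∃ z : Fin k × Bool, n ∈ S → a z.1 * (n : ℤ) + b z.1 = if z.2 then 1 else -1 := by
      intro n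
      by_cases hn : n ∈ S
      · obtain ⟨u, hu⟩ := hS n hn
        rcases (abs_eq (by norm_num : (0 : ℤ) ≤ 1)).1 hu with h | h
        · exact ⟨(u, true), fun _ => by simpa using h⟩
        · exact ⟨(u, false), fun _ => by simpa using h⟩
      · exact ⟨(⟨0, hk⟩, true), fun h => absurd h hn⟩
    choose f hf using h2
    apply Finset.card_le_card_of_injOn f (fun _ _ => by simp)
    intro n hn n' hn' h
    have e1 := hf n hn
    have e2 := hf n' hn'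
    rw [← h] at e2
    have e3 : a (f n).1 * (n : ℤ) = a (f n).1 * n' := by linarith
    exact_mod_cast mul_left_cancel₀ (ha _) e3
  rw [card_product, card_univ, card_univ, Fintype.card_fin, Fintype.card_bool] at h1
  omega

/-- **Isolated clusters of primes with far almost prime companions.** -/
theorem cluI (g m : ℕ) (hg : 1 ≤ g) : ∃ κ W t : ℕ, 1 ≤ W ∧ 1 ≤ t ∧ (∀ p : ℕ, p.Prime → p ≤ g * 2 ^ κ → p ∣ W) ∧
    ∃ c : ℝ, 0 < c ∧ ∀ (β : ℝ) (E : ℕ), 0 < β → ∃ ε C : ℝ, 0 < ε ∧ 0 < C ∧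
    ∀ (A' s r : ℕ) (δ : ℝ), 1 ≤ s → 0 < δ → ∃ d X₀ : ℕ, ∀ X : ℕ, X₀ ≤ X → ∀ a b : Fin g → ℤ, SysC g E A' X a b →
      c / Real.log X ^ (g * 2 ^ κ) ≤ VL (sysA (2 ^ κ) a) (sysB W (2 ^ κ) a b) X ∧
      c * X * VL (sysA (2 ^ κ) a) (sysB W (2 ^ κ) a b) X ≤
        ((GoodC W (2 ^ κ) m a b t ((A' + 3) * t) X (ε * Real.log X) ((X : ℝ) ^ β)).card : ℝ) ∧
      ((RL (sysA (2 ^ κ) a) (sysB W (2 ^ κ) a b) ((X : ℝ) ^ β) (X / 2) X).card : ℝ) ≤
        C * X * VL (sysA (2 ^ κ) a) (sysB W (2 ^ κ) a b) X ∧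
      ∀ χ : ℕ → Fin r, ∃ P : Finset (ℕ × ℕ),
        (∀ z ∈ P, 1 ≤ z.2 ∧ (z.2 : ℝ) ≤ Real.log X ^ d ∧ ∀ j < s,
          z.1 + j * z.2 ∈ GoodC W (2 ^ κ) m a b t ((A' + 3) * t) X (ε * Real.log X) ((X : ℝ) ^ β) ∧
          χ (z.1 + j * z.2) = χ z.1 ∧
          ∀ i : Fin (2 ^ κ), (z.1 + j * z.2 + W * (i : ℕ)).Prime ↔ (z.1 + W * (i : ℕ)).Prime) ∧
        (P : Set (ℕ × ℕ)).PairwiseDisjoint (apSet s) ∧
        (((GoodC W (2 ^ κ) m a b t ((A' + 3) * t) X (ε * Real.log X) ((X : ℝ) ^ β) \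
          P.biUnion (apSet s)).card : ℕ) : ℝ) ≤ δ * X * VL (sysA (2 ^ κ) a) (sysB W (2 ^ κ) a b) X := by
  classical
  obtain ⟨κ, W, t, hW, ht, hWp, c, hc, X₁, HL⟩ := low g m hg
  have hD1 : 1 ≤ g * 2 ^ κ := Nat.mul_pos hg (by positivity)
  obtain ⟨Dr, hDr⟩ : ∃ Dr : ℝ, Dr = ((g * 2 ^ κ : ℕ) : ℝ) := ⟨_, rfl⟩
  have hDr0 : 0 < Dr := by
    rw [hDr]
    exact_mod_cast hD1
  obtain ⟨cV, hcV, hV⟩ := vl_low (g * 2 ^ κ) hD1
  refine ⟨κ, W, t, hW, ht, hWp, min cV (c / 2), lt_min hcV (by positivity), fun β E hβ => ?_⟩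
  have ht0 : (0 : ℝ) < t := by exact_mod_cast ht
  obtain ⟨β', hβ'⟩ : ∃ β' : ℝ, β' = min β (1 / (t : ℝ)) := ⟨_, rfl⟩
  have hβ'0 : 0 < β' := by
    rw [hβ']
    exact lt_min hβ (by positivity)
  obtain ⟨ε, hε, HI⟩ := noniso (g * 2 ^ κ) E hD1 β' hβ'0 (c / 4) (by positivity)
  obtain ⟨C, hC, X₂, HU⟩ := rough_lin (g * 2 ^ κ) E hD1 (1 / 2) (by norm_num) β hβ
  refine ⟨ε, C, hε, hC, fun A' s r δ hs hδ => ?_⟩
  obtain ⟨X₃, HI⟩ := HI (A' + 1)
  obtain ⟨d, X₄, HC⟩ := cover (g * 2 ^ κ) t hD1 ht s (Fintype.card (Fin r × (Fin (2 ^ κ) → Bool))) (1 / 2) δ hs (by norm_num) hδ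
  have h1 : ∀ᶠ X : ℕ in atTop, (2 : ℝ) ≤ (X : ℝ) ^ (1 / (t : ℝ)) :=
    ((tendsto_rpow_atTop (by positivity : (0 : ℝ) < 1 / t)).comp tendsto_natCast_atTop_atTop).eventually_ge_atTop _
  have h2 : ∀ᶠ X : ℕ in atTop, (8 * Dr / (c * cV)) * Real.log X ^ (g * 2 ^ κ) ≤ X := log_small (g * 2 ^ κ) _
  obtain ⟨X₅, h3⟩ := eventually_atTop.1 (h1.and h2)
  obtain ⟨K, hK⟩ : ∃ K : ℕ, K = E * (W * 2 ^ κ) := ⟨_, rfl⟩
  refine ⟨d, X₁ + X₂ + X₃ + X₄ + X₅ + K + E + 9, fun X hX a b S => ?_⟩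
  obtain ⟨g1, g2⟩ := h3 X (by omega)
  have hX1 : (1 : ℝ) < X := by exact_mod_cast (by omega : 1 < X)
  have hX0 : (0 : ℝ) < X := by linarith
  have hlog : 0 < Real.log X := Real.log_pos hX1
  have hlogD : 0 < Real.log X ^ (g * 2 ^ κ) := pow_pos hlog _
  have hadm : AdmL (sysA (2 ^ κ) a) (sysB W (2 ^ κ) a b) := adm_sys W (2 ^ κ) a b S.adm hWp
  have hA0 : ∀ u, sysA (2 ^ κ) a u ≠ 0 := fun u => S.a0 _
  have hAE : ∀ u, |sysA (2 ^ κ) a u| ≤ E := fun u => S.aE _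
  have hXz : (1 : ℤ) ≤ X := by exact_mod_cast (by omega : 1 ≤ X)
  have hBX : ∀ u, |sysB W (2 ^ κ) a b u| ≤ (X : ℤ) ^ (A' + 1) := by
    intro u
    unfold sysB
    have e1 := S.bX (finProdFinEquiv.symm u).1
    have e2 : |a (finProdFinEquiv.symm u).1 * ((W * ((finProdFinEquiv.symm u).2 : ℕ) : ℕ) : ℤ)| ≤ K := by
      rw [abs_mul, Nat.abs_cast]
      have e3 : ((W * ((finProdFinEquiv.symm u).2 : ℕ) : ℕ) : ℤ) ≤ ((W * 2 ^ κ : ℕ) : ℤ) := by
        exact_mod_cast Nat.mul_le_mul_left W (finProdFinEquiv.symm u).2.isLt.le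
      calc |a (finProdFinEquiv.symm u).1| * ((W * ((finProdFinEquiv.symm u).2 : ℕ) : ℕ) : ℤ)
          ≤ E * ((W * 2 ^ κ : ℕ) : ℤ) := mul_le_mul (S.aE _) e3 (by positivity) (by positivity)
        _ = K := by rw [hK]; push_cast; ring
    have e4 := abs_add_le (b (finProdFinEquiv.symm u).1)
      (a (finProdFinEquiv.symm u).1 * ((W * ((finProdFinEquiv.symm u).2 : ℕ) : ℕ) : ℤ))
    have e5 : (K : ℤ) + 1 ≤ X := by exact_mod_cast (by omega : K + 1 ≤ X)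
    have e6 : (1 : ℤ) ≤ (X : ℤ) ^ A' := one_le_pow₀ hXz
    calc _ ≤ _ := e4
      _ ≤ (X : ℤ) ^ A' + K := add_le_add e1 e2
      _ ≤ (X : ℤ) ^ A' + K * X ^ A' := by nlinarith
      _ = (K + 1) * X ^ A' := by ring
      _ ≤ X * X ^ A' := mul_le_mul_of_nonneg_right e5 (by positivity)
      _ = X ^ (A' + 1) := by ring
  obtain ⟨V, hVdef⟩ : ∃ V : ℝ, V = VL (sysA (2 ^ κ) a) (sysB W (2 ^ κ) a b) X := ⟨_, rfl⟩
  have hVlow : cV / Real.log X ^ (g * 2 ^ κ) ≤ V := by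
    rw [hVdef]
    exact hV _ _ X (by omega) hA0 hadm
  have hV0 : 0 < V := lt_of_lt_of_le (by positivity) hVlow
  have hR := HL X (by omega) a b S.a0 S.adm S.id
  have hXhalf : (X : ℝ) / 2 ≤ (X : ℝ) - ((X / 2 : ℕ) : ℝ) := by
    have : ((X / 2 : ℕ) : ℝ) ≤ (X : ℝ) / 2 := Nat.cast_div_le
    linarith
  have hXle : (X : ℝ) - ((X / 2 : ℕ) : ℝ) ≤ X := by
    have : (0 : ℝ) ≤ ((X / 2 : ℕ) : ℝ) := Nat.cast_nonneg _
    linarith
  have hsq : (X : ℝ) ^ (1 / 2 : ℝ) ≤ (X : ℝ) - ((X / 2 : ℕ) : ℝ) := by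
    refine le_trans ?_ hXhalf
    rw [← Real.sqrt_eq_rpow]
    rw [Real.sqrt_le_left (by positivity)]
    have : (4 : ℝ) ≤ X := by exact_mod_cast (by omega : 4 ≤ X)
    nlinarith
  obtain ⟨y, hy⟩ : ∃ y : ℝ, y = (X : ℝ) ^ β := ⟨_, rfl⟩
  obtain ⟨w, hw⟩ : ∃ w : ℝ, w = ε * Real.log X := ⟨_, rfl⟩
  have hy' : (X : ℝ) ^ β' ≤ y := by
    rw [hy]
    apply Real.rpow_le_rpow_of_exponent_le hX1.le
    rw [hβ']
    exact min_le_left _ _
  have hy'' : (X : ℝ) ^ β' ≤ (X : ℝ) ^ (1 / (t : ℝ)) := by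
    apply Real.rpow_le_rpow_of_exponent_le hX1.le
    rw [hβ']
    exact min_le_right _ _
  rw [← hVdef, ← hy, ← hw]
  rw [← hVdef] at hR
  obtain ⟨R, hRdef⟩ : ∃ R : Finset ℕ, R = RC W (2 ^ κ) m a b ((X : ℝ) ^ (1 / (t : ℝ))) X := ⟨_, rfl⟩
  obtain ⟨G, hGdef⟩ : ∃ G : Finset ℕ, G = GoodC W (2 ^ κ) m a b t ((A' + 3) * t) X w y := ⟨_, rfl⟩
  rw [← hRdef] at hR
  rw [← hGdef]
  have hRsub : R ⊆ RL (sysA (2 ^ κ) a) (sysB W (2 ^ κ) a b) ((X : ℝ) ^ β') (X / 2) X := by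
    intro n hn
    rw [hRdef] at hn
    unfold RC RL at hn
    unfold RL
    rw [mem_filter, mem_filter] at hn
    rw [mem_filter]
    exact ⟨hn.1.1, fun l p hp hpy => hn.1.2 l p hp (hpy.trans hy'')⟩
  have hni := HI X (by omega) (sysA (2 ^ κ) a) (sysB W (2 ^ κ) a b) hA0 hAE hBX y hy' (X / 2) X le_rfl hsq R hRsub
  rw [← hw, ← hVdef] at hni
  obtain ⟨Z, hZ⟩ : ∃ Z : Finset ℕ, Z = R.filter (fun n : ℕ => ∃ u, |sysA (2 ^ κ) a u * (n : ℤ) + sysB W (2 ^ κ) a b u| = 1) :=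
    ⟨_, rfl⟩
  have hZc : (Z.card : ℝ) ≤ 2 * Dr := by
    have := card_one (g * 2 ^ κ) hD1 (sysA (2 ^ κ) a) (sysB W (2 ^ κ) a b) hA0 Z (fun n hn => by
      rw [hZ, mem_filter] at hn
      exact hn.2)
    rw [hDr]
    exact_mod_cast this
  have hsub : R ⊆ (R.filter (fun n => ¬ IsoAt (sysA (2 ^ κ) a) (sysB W (2 ^ κ) a b) w y n)) ∪ Z ∪ G := by
    intro n hn
    rw [mem_union, mem_union, mem_filter, hZ, mem_filter]
    by_cases hi : IsoAt (sysA (2 ^ κ) a) (sysB W (2 ^ κ) a b) w y n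
    · by_cases hone : ∃ u, |sysA (2 ^ κ) a u * (n : ℤ) + sysB W (2 ^ κ) a b u| = 1
      · exact Or.inl (Or.inr ⟨hn, hone⟩)
      · right
        have hn' := hn
        rw [hRdef] at hn'
        unfold RC RL at hn'
        rw [mem_filter, mem_filter] at hn'
        obtain ⟨⟨hn1, hn2⟩, hn3⟩ := hn'
        rw [hGdef]
        unfold GoodC
        rw [mem_filter]
        refine ⟨hn1, hn3, fun u => ?_, hi⟩
        have hne : sysA (2 ^ κ) a u * (n : ℤ) + sysB W (2 ^ κ) a b u ≠ 0 := by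
          intro h0
          apply hn2 u 2 Nat.prime_two (by exact_mod_cast g1)
          rw [h0]
          exact dvd_zero _
        have h1lt : 1 < |sysA (2 ^ κ) a u * (n : ℤ) + sysB W (2 ^ κ) a b u| := by
          have e1 : 0 < |sysA (2 ^ κ) a u * (n : ℤ) + sysB W (2 ^ κ) a b u| := abs_pos.2 hne
          have e2 : |sysA (2 ^ κ) a u * (n : ℤ) + sysB W (2 ^ κ) a b u| ≠ 1 := fun h => hone ⟨u, h⟩
          omega
        have hdiv : ∀ q : ℕ, q.Prime → (q : ℤ) ∣ sysA (2 ^ κ) a u * (n : ℤ) + sysB W (2 ^ κ) a b u →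
            (X : ℝ) ^ (1 / (t : ℝ)) < q := by
          intro q hq hd
          by_contra hcon
          exact hn2 u q hq (not_lt.1 hcon) hd
        refine ⟨h1lt, ?_, hdiv⟩
        have hnX : (n : ℤ) ≤ X := by exact_mod_cast (mem_Ioc.1 hn1).2
        have hv : |sysA (2 ^ κ) a u * (n : ℤ) + sysB W (2 ^ κ) a b u| ≤ (X : ℤ) ^ (A' + 2) := by
          have e1 : |sysA (2 ^ κ) a u * (n : ℤ)| ≤ E * X := by
            rw [abs_mul, Nat.abs_cast]
            exact mul_le_mul (hAE u) hnX (by positivity) (by positivity)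
          have e3 : (X : ℤ) ≤ (X : ℤ) ^ (A' + 1) := by
            calc (X : ℤ) = X ^ 1 := (pow_one _).symm
              _ ≤ _ := pow_le_pow_right₀ hXz (by omega)
          have e5 : (E : ℤ) + 1 ≤ X := by exact_mod_cast (by omega : E + 1 ≤ X)
          calc _ ≤ |sysA (2 ^ κ) a u * (n : ℤ)| + |sysB W (2 ^ κ) a b u| := abs_add_le _ _
            _ ≤ E * X + X ^ (A' + 1) := add_le_add e1 (hBX u)
            _ ≤ E * X ^ (A' + 1) + X ^ (A' + 1) := by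
                have := mul_le_mul_of_nonneg_left e3 (show (0 : ℤ) ≤ E by positivity)
                linarith
            _ = (E + 1) * X ^ (A' + 1) := by ring
            _ ≤ X * X ^ (A' + 1) := mul_le_mul_of_nonneg_right e5 (by positivity)
            _ = X ^ (A' + 2) := by ring
        refine Pool.Agent.Y840.CT.length_le (y := (X : ℝ) ^ (1 / (t : ℝ))) (B := (X : ℝ) ^ (A' + 2))
          (Int.natAbs_ne_zero.2 hne) (by linarith) ?_ ?_ ?_
        · have h4 : (((sysA (2 ^ κ) a u * (n : ℤ) + sysB W (2 ^ κ) a b u).natAbs : ℕ) : ℤ) ≤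
              ((X ^ (A' + 2) : ℕ) : ℤ) := by
            rw [← Int.abs_eq_natAbs]
            push_cast
            exact hv
          have h5 : (sysA (2 ^ κ) a u * (n : ℤ) + sysB W (2 ^ κ) a b u).natAbs ≤ X ^ (A' + 2) := by exact_mod_cast h4
          exact_mod_cast h5
        · have h4 : ((X : ℝ) ^ (1 / (t : ℝ))) ^ ((A' + 3) * t) = (X : ℝ) ^ (A' + 3) := by
            rw [mul_comm, pow_mul]
            congr 1
            rw [← Real.rpow_natCast, ← Real.rpow_mul hX0.le, one_div, inv_mul_cancel₀ ht0.ne', Real.rpow_one]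
          rw [pow_succ ((X : ℝ) ^ (1 / (t : ℝ))), h4]
          have h6 : (X : ℝ) ^ (A' + 2) < (X : ℝ) ^ (A' + 3) := pow_lt_pow_right₀ hX1 (by omega)
          have h7 : 0 < (X : ℝ) ^ (A' + 3) := by positivity
          nlinarith
        · intro q hq hd
          exact hdiv q hq (Int.natCast_dvd.2 hd)
    · exact Or.inl (Or.inl ⟨hn, hi⟩)
  have hcard : (R.card : ℝ) ≤ ((R.filter (fun n => ¬ IsoAt (sysA (2 ^ κ) a) (sysB W (2 ^ κ) a b) w y n)).card : ℝ) +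
      Z.card + G.card := by
    have e1 := card_le_card hsub
    have e2 := card_union_le (R.filter (fun n => ¬ IsoAt (sysA (2 ^ κ) a) (sysB W (2 ^ κ) a b) w y n) ∪ Z) G
    have e3 := card_union_le (R.filter (fun n => ¬ IsoAt (sysA (2 ^ κ) a) (sysB W (2 ^ κ) a b) w y n)) Z
    exact_mod_cast e1.trans (e2.trans (by omega))
  have hni' : ((R.filter (fun n => ¬ IsoAt (sysA (2 ^ κ) a) (sysB W (2 ^ κ) a b) w y n)).card : ℝ) ≤ c / 4 * X * V := by
    refine hni.trans ?_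
    apply mul_le_mul_of_nonneg_right _ hV0.le
    exact mul_le_mul_of_nonneg_left hXle (by positivity)
  have hZ' : (Z.card : ℝ) ≤ c / 4 * X * V := by
    refine hZc.trans ?_
    have e1 : 8 * Dr / (c * cV) * Real.log X ^ (g * 2 ^ κ) ≤ X := g2
    have e2 : 8 * Dr * Real.log X ^ (g * 2 ^ κ) ≤ X * (c * cV) := by
      have e3 : 8 * Dr / (c * cV) * Real.log X ^ (g * 2 ^ κ) = (8 * Dr * Real.log X ^ (g * 2 ^ κ)) / (c * cV) := by ring
      rw [e3, div_le_iff₀ (by positivity)] at e1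
      exact e1
    have e4 : 2 * Dr ≤ c / 4 * X * (cV / Real.log X ^ (g * 2 ^ κ)) := by
      have e5 : c / 4 * X * (cV / Real.log X ^ (g * 2 ^ κ)) = (X * (c * cV) / 4) / Real.log X ^ (g * 2 ^ κ) := by
        field_simp
      rw [e5, le_div_iff₀ hlogD]
      linarith
    exact e4.trans (mul_le_mul_of_nonneg_left hVlow (by positivity))
  refine ⟨?_, ?_, ?_, ?_⟩
  · refine le_trans ?_ hVlow
    exact div_le_div_of_nonneg_right (min_le_left _ _) hlogD.le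
  · have e1 : min cV (c / 2) * X * V ≤ c / 2 * X * V := by
      apply mul_le_mul_of_nonneg_right _ hV0.le
      exact mul_le_mul_of_nonneg_right (min_le_right _ _) hX0.le
    linarith
  · have e1 := HU X (by omega) (sysA (2 ^ κ) a) (sysB W (2 ^ κ) a b) hA0 hAE (X / 2) X le_rfl hsq
    rw [← hVdef, ← hy] at e1
    refine e1.trans ?_
    apply mul_le_mul_of_nonneg_right _ hV0.le
    exact mul_le_mul_of_nonneg_left hXle hC.le
  · intro χ
    have hGI : G ⊆ Ioc (X / 2) X := by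
      rw [hGdef]
      exact filter_subset _ _
    obtain ⟨P, p1, p2, p3⟩ := HC X (by omega) (sysA (2 ^ κ) a) (sysB W (2 ^ κ) a b) hA0 hadm (X / 2) X le_rfl
      (by linarith) G hGI (by
        intro x hx l q hq hd
        rw [hGdef] at hx
        unfold GoodC at hx
        rw [mem_filter] at hx
        exact (hx.2.2.1 l).2.2 q hq hd)
      (fun n => Fintype.equivFin _ (χ n, fun i : Fin (2 ^ κ) => decide (n + W * (i : ℕ)).Prime))
    refine ⟨P, fun z hz => ?_, p2, ?_⟩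
    · obtain ⟨q1, q2, q3⟩ := p1 z hz
      refine ⟨q1, q2, fun j hj => ?_⟩
      obtain ⟨q4, q5⟩ := q3 j hj
      have q6 := (Fintype.equivFin (Fin r × (Fin (2 ^ κ) → Bool))).injective q5
      rw [Prod.mk.injEq] at q6
      refine ⟨q4, q6.1, fun i => ?_⟩
      have q7 := congrFun q6.2 i
      simpa using q7
    · rw [← hVdef] at p3
      refine p3.trans ?_
      apply mul_le_mul_of_nonneg_right _ hV0.le
      exact mul_le_mul_of_nonneg_left hXle hδ.le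

end Pool.Agent.T6.H2.CL
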