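import Pool.Agent.T6.H2.CL.Main

/-!
# Isolated clusters of primes with far almost prime companions: the first prime of the cluster (helper2)
-/

set_option autoImplicit false

namespace Pool.Agent.T6.H2.CL

open Finset Filter
open scoped Polynomial
open Pool.Agent.X32.Uni Pool.Agent.T6.H2.PT Pool.Agent.T6.H2.FR

variable {g : ℕ}

/-- the forms other than `n` have large values -/
def Far (X : ℕ) (a b : Fin g → ℤ) : Prop :=
  ∀ l, (a l = 1 ∧ b l = 0) ∨ ∀ x : ℤ, 0 ≤ x → x ≤ 2 * (X : ℤ) → 3 * (X : ℤ) ≤ |a l * x + b l|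

/-- `p` is the first of at least `m` primes in `[p, p + C]`, these are the only primes at distance at most `w` of `p`, all the
forms have almost prime values at them, and the values of the forms at `p` are isolated -/
def Clu (C m T : ℕ) (a b : Fin g → ℤ) (y₀ w y : ℝ) (p : ℕ) : Prop :=
  p.Prime ∧ m ≤ ((Icc p (p + C)).filter Nat.Prime).card ∧
  (∀ q : ℕ, q.Prime → |(q : ℝ) - p| ≤ w → p ≤ q ∧ q ≤ p + C) ∧
  (∀ q : ℕ, q.Prime → p ≤ q → q ≤ p + C → ∀ l, Almost T y₀ (a l * (q : ℤ) + b l)) ∧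
  ∀ l, ∀ z : ℤ, |(z : ℝ) - ((a l * (p : ℤ) + b l : ℤ) : ℝ)| ≤ w →
    (∀ q : ℕ, q.Prime → (q : ℝ) ≤ y → ¬ (q : ℤ) ∣ z) →
    ∃ (l' : Fin g) (x : ℤ), |x - p| ≤ C ∧ (z = a l' * x + b l' ∨ z = -(a l' * x + b l')) ∧ Almost T y₀ z

theorem almost_neg {T : ℕ} {y : ℝ} {v : ℤ} (h : Almost T y v) : Almost T y (-v) := by
  refine ⟨by rw [abs_neg]; exact h.1, by rw [Int.natAbs_neg]; exact h.2.1, fun q hq hd => h.2.2 q hq ?_⟩
  exact (dvd_neg).1 hd

/-- the index of the first prime -/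
noncomputable def i0 (W Q n : ℕ) : ℕ := sInf {i : ℕ | i < Q ∧ (n + W * i).Prime}

theorem clu_of_good {E A' X W Q m t : ℕ} {a b : Fin g → ℤ} {w y : ℝ} (S : SysC g E A' X a b) (F : Far X a b)
    (hW : 1 ≤ W) (hC : ((W * Q : ℕ) : ℝ) ≤ w) (hw : 8 * w ≤ X) (hy : y ≤ (X : ℝ) ^ (1 / 2 : ℝ)) (hX : 64 ≤ X) {n : ℕ}
    (hn : n ∈ GoodC W Q m a b t ((A' + 3) * t) X w y) :
    Clu (W * Q) (m + 1) ((A' + 3) * t) a b ((X : ℝ) ^ (1 / (t : ℝ))) w y (n + W * i0 W Q n) ∧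
      X / 2 < n + W * i0 W Q n ∧ n + W * i0 W Q n ≤ X + W * Q := by
  classical
  unfold GoodC at hn
  rw [mem_filter, mem_Ioc] at hn
  obtain ⟨⟨hn1, hn2⟩, hn3, hn4, hn5⟩ := hn
  -- the first prime
  obtain ⟨i1, hi1⟩ : ((univ : Finset (Fin Q)).filter (fun i : Fin Q => (n + W * (i : ℕ)).Prime)).Nonempty :=
    card_pos.1 (by omega)
  rw [mem_filter] at hi1
  have hne : {i : ℕ | i < Q ∧ (n + W * i).Prime}.Nonempty := ⟨i1, i1.isLt, hi1.2⟩
  have hi0 := Nat.sInf_mem hne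
  obtain ⟨hi0Q, hi0p⟩ := hi0
  obtain ⟨i, hi⟩ : ∃ i : ℕ, i = i0 W Q n := ⟨_, rfl⟩
  have hiQ : i < Q := by rw [hi]; exact hi0Q
  have hip : (n + W * i).Prime := by rw [hi]; exact hi0p
  have hmin : ∀ j : ℕ, j < Q → (n + W * j).Prime → i ≤ j := by
    intro j h1 h2
    rw [hi]
    exact Nat.sInf_le ⟨h1, h2⟩
  rw [← hi]
  obtain ⟨p, hp⟩ : ∃ p : ℕ, p = n + W * i := ⟨_, rfl⟩
  rw [← hp] at hip ⊢
  have hWi : W * i ≤ W * Q := Nat.mul_le_mul_left _ hiQ.le
  have hXr : (64 : ℝ) ≤ X := by exact_mod_cast hX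
  have hX0 : (0 : ℝ) < X := by linarith
  have hWQ : 8 * (W * Q) ≤ X := by
    have : 8 * ((W * Q : ℕ) : ℝ) ≤ X := by linarith
    exact_mod_cast this
  have hp1 : (X : ℝ) / 2 ≤ p := by
    have h1 : X ≤ 2 * p := by omega
    have h2 : (X : ℝ) ≤ 2 * p := by exact_mod_cast h1
    linarith
  have hp2 : (p : ℝ) ≤ X + ((W * Q : ℕ) : ℝ) := by exact_mod_cast (by omega : p ≤ X + W * Q)
  obtain ⟨l0, hl0a, hl0b⟩ := S.id
  have hpval : ∀ l (j : Fin Q), sysA Q a (finProdFinEquiv (l, j)) * (n : ℤ) + sysB W Q a b (finProdFinEquiv (l, j)) =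
      a l * ((n + W * (j : ℕ) : ℕ) : ℤ) + b l := by
    intro l j
    rw [sys_val']
    push_cast
    ring
  have hval : ∀ l, sysA Q a (finProdFinEquiv (l, ⟨i, hiQ⟩)) * (n : ℤ) + sysB W Q a b (finProdFinEquiv (l, ⟨i, hiQ⟩)) =
      a l * (p : ℤ) + b l := by
    intro l
    rw [hpval, hp]
  -- a rough number near a value
  have key : ∀ l, ∀ z : ℤ, |(z : ℝ) - ((a l * (p : ℤ) + b l : ℤ) : ℝ)| ≤ w →
      (∀ q : ℕ, q.Prime → (q : ℝ) ≤ y → ¬ (q : ℤ) ∣ z) → ∃ (l' : Fin g) (j : Fin Q),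
        (z = a l' * ((n + W * (j : ℕ) : ℕ) : ℤ) + b l' ∨ z = -(a l' * ((n + W * (j : ℕ) : ℕ) : ℤ) + b l')) := by
    intro l z hz1 hz2
    by_contra hcon
    push Not at hcon
    obtain ⟨q, hq1, hq2, hq3⟩ := hn5 (finProdFinEquiv (l, ⟨i, hiQ⟩)) z (by rw [hval]; exact hz1) (by
      intro u
      obtain ⟨⟨l', j⟩, rfl⟩ := finProdFinEquiv.surjective u
      rw [hpval]
      exact hcon l' j)
    exact hz2 q hq1 hq2 hq3
  -- the primes near `p`
  have keyp : ∀ q : ℕ, q.Prime → |(q : ℝ) - p| ≤ w → ∃ j : Fin Q, q = n + W * (j : ℕ) := by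
    intro q hq hqw
    have hq0 : (q : ℝ) ≤ X + ((W * Q : ℕ) : ℝ) + w := by
      have := (abs_le.1 hqw).2
      linarith
    have hqlow : y < q := by
      have h1 := (abs_le.1 hqw).1
      have h2 : (X : ℝ) / 4 < q := by linarith
      have h3 : (X : ℝ) ^ (1 / 2 : ℝ) ≤ X / 4 := by
        rw [← Real.sqrt_eq_rpow, Real.sqrt_le_left (by positivity)]
        nlinarith
      linarith
    obtain ⟨l', j, h⟩ := key l0 (q : ℤ) (by
      rw [hl0a, hl0b]
      push_cast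
      simpa using hqw) (by
      intro q' hq' hq'y hd
      have h1 : q' = q := (Nat.prime_dvd_prime_iff_eq hq' hq).1 (Int.natCast_dvd_natCast.1 hd)
      rw [h1] at hq'y
      linarith)
    have hj : W * (j : ℕ) ≤ W * Q := Nat.mul_le_mul_left _ j.isLt.le
    rcases F l' with ⟨h1, h2⟩ | h1
    · refine ⟨j, ?_⟩
      rw [h1, h2, one_mul, add_zero] at h
      rcases h with h | h
      · exact_mod_cast h
      · exfalso
        have h3 : 0 < q := hq.pos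
        omega
    · exfalso
      have h2 := h1 ((n + W * (j : ℕ) : ℕ) : ℤ) (by positivity) (by
        have : n + W * (j : ℕ) ≤ 2 * X := by omega
        exact_mod_cast this)
      have h3 : (q : ℤ) = |a l' * ((n + W * (j : ℕ) : ℕ) : ℤ) + b l'| := by
        rcases h with h | h
        · rw [← h]
          simp
        · rw [← abs_neg, ← h]
          simp
      rw [← h3] at h2
      have h4 : 3 * X ≤ q := by exact_mod_cast h2
      have h5 : 3 * (X : ℝ) ≤ q := by exact_mod_cast h4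
      linarith
  have hnear : ∀ q : ℕ, p ≤ q → q ≤ p + W * Q → |(q : ℝ) - p| ≤ w := by
    intro q h1 h2
    have h3 : (p : ℝ) ≤ q := by exact_mod_cast h1
    have h4 : (q : ℝ) ≤ p + ((W * Q : ℕ) : ℝ) := by exact_mod_cast h2
    rw [abs_of_nonneg (by linarith)]
    linarith
  refine ⟨⟨hip, ?_, ?_, ?_, ?_⟩, by omega, by omega⟩
  · refine le_trans (Nat.succ_le_of_lt hn3) ?_
    apply Finset.card_le_card_of_injOn (fun j : Fin Q => n + W * (j : ℕ))
    · intro j hj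
      rw [Finset.mem_coe, mem_filter] at hj
      rw [Finset.mem_coe, mem_filter, mem_Icc]
      have h1 := hmin j j.isLt hj.2
      have h2 : W * i ≤ W * (j : ℕ) := Nat.mul_le_mul_left _ h1
      have h3 : W * (j : ℕ) ≤ W * Q := Nat.mul_le_mul_left _ j.isLt.le
      exact ⟨⟨by dsimp only; omega, by dsimp only; omega⟩, hj.2⟩
    · intro j _ j' _ h
      dsimp only at h
      have h1 : W * (j : ℕ) = W * (j' : ℕ) := by omega
      exact Fin.ext (Nat.eq_of_mul_eq_mul_left (by omega) h1)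
  · intro q hq hqw
    obtain ⟨j, hj⟩ := keyp q hq hqw
    rw [hj] at hq
    have h1 := hmin j j.isLt hq
    have h2 : W * i ≤ W * (j : ℕ) := Nat.mul_le_mul_left _ h1
    have h3 : W * (j : ℕ) ≤ W * Q := Nat.mul_le_mul_left _ j.isLt.le
    omega
  · intro q hq hq1 hq2 l
    obtain ⟨j, hj⟩ := keyp q hq (hnear q hq1 hq2)
    have h1 := hn4 (finProdFinEquiv (l, j))
    rw [hpval, ← hj] at h1
    exact h1
  · intro l z hz1 hz2
    obtain ⟨l', j, h⟩ := key l z hz1 hz2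
    have h1 := hn4 (finProdFinEquiv (l', j))
    rw [hpval] at h1
    refine ⟨l', ((n + W * (j : ℕ) : ℕ) : ℤ), ?_, h, ?_⟩
    · have h3 : W * (j : ℕ) ≤ W * Q := Nat.mul_le_mul_left _ j.isLt.le
      rw [hp, abs_le]
      constructor
      · have : (n + W * i : ℕ) ≤ (n + W * (j : ℕ)) + W * Q := by omega
        have h4 : ((n + W * i : ℕ) : ℤ) ≤ ((n + W * (j : ℕ) : ℕ) : ℤ) + ((W * Q : ℕ) : ℤ) := by exact_mod_cast this
        linarith
      · have : (n + W * (j : ℕ) : ℕ) ≤ (n + W * i) + W * Q := by omega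
        have h4 : ((n + W * (j : ℕ) : ℕ) : ℤ) ≤ ((n + W * i : ℕ) : ℤ) + ((W * Q : ℕ) : ℤ) := by exact_mod_cast this
        linarith
    · rcases h with h | h
      · rw [h]; exact h1
      · rw [h]; exact almost_neg h1

theorem clu_mono {C m T : ℕ} {a b : Fin g → ℤ} {y₀ w y y' : ℝ} (hy : y ≤ y') {p : ℕ} (h : Clu C m T a b y₀ w y p) :
    Clu C m T a b y₀ w y' p :=
  ⟨h.1, h.2.1, h.2.2.1, h.2.2.2.1, fun l z hz1 hz2 => h.2.2.2.2 l z hz1 (fun q hq hqy => hz2 q hq (hqy.trans hy))⟩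

/-- **Many isolated clusters of primes with far almost prime companions, in one-coloured progressions.** -/
theorem cluP (g m : ℕ) (hg : 1 ≤ g) : ∃ C D t : ℕ, 1 ≤ t ∧ ∃ c : ℝ, 0 < c ∧ ∀ (β : ℝ) (E : ℕ), 0 < β → ∃ ε : ℝ, 0 < ε ∧
    ∀ (A' s r : ℕ), 1 ≤ s → ∃ d X₀ : ℕ, ∀ X : ℕ, X₀ ≤ X → ∀ a b : Fin g → ℤ, SysC g E A' X a b → Far X a b →
      ∀ χ : ℕ → Fin r, ∃ S : Finset ℕ, c * X / Real.log X ^ D ≤ (S.card : ℝ) ∧
        ∀ p ∈ S, ∃ x e : ℕ, 1 ≤ e ∧ (e : ℝ) ≤ Real.log X ^ d ∧ (∃ j < s, p = x + j * e) ∧ ∀ j < s,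
          Clu C m ((A' + 3) * t) a b ((X : ℝ) ^ (1 / (t : ℝ))) (ε * Real.log X) ((X : ℝ) ^ β) (x + j * e) ∧
          X / 2 < x + j * e ∧ x + j * e ≤ X + C ∧ χ (x + j * e) = χ p := by
  classical
  obtain ⟨κ, W, t, hW, ht, -, c, hc, H⟩ := cluI g m hg
  obtain ⟨Q, hQ⟩ : ∃ Q : ℕ, Q = 2 ^ κ := ⟨_, rfl⟩
  have hQ1 : 1 ≤ Q := by rw [hQ]; exact Nat.one_le_two_pow
  rw [← hQ] at H
  have hQ0 : (0 : ℝ) < Q := by exact_mod_cast hQ1
  refine ⟨W * Q, g * Q, t, ht, c * c / (2 * Q), by positivity, fun β E hβ => ?_⟩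
  obtain ⟨ε, C, hε, hC, H⟩ := H (min β (1 / 2)) E (lt_min hβ (by norm_num))
  refine ⟨ε, hε, fun A' s r hs => ?_⟩
  obtain ⟨d, X₁, H⟩ := H A' s r (c / 2) hs (by positivity)
  have hlogt : Tendsto (fun X : ℕ => Real.log (X : ℝ)) atTop atTop :=
    Real.tendsto_log_atTop.comp tendsto_natCast_atTop_atTop
  obtain ⟨X₂, h2⟩ := eventually_atTop.1 ((hlogt.eventually_ge_atTop (((W * Q : ℕ) : ℝ) / ε)).and
    (log_small 1 (8 * ε)))
  refine ⟨d, X₁ + X₂ + 64, fun X hX a b S F χ => ?_⟩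
  obtain ⟨g1, g2⟩ := h2 X (by omega)
  rw [div_le_iff₀ hε] at g1
  have hwC : ((W * Q : ℕ) : ℝ) ≤ ε * Real.log X := by linarith
  have hw8 : 8 * (ε * Real.log X) ≤ X := by
    rw [pow_one] at g2
    linarith
  have hX1 : (1 : ℝ) < X := by exact_mod_cast (by omega : 1 < X)
  have hX0 : (0 : ℝ) < X := by linarith
  have hlog : 0 < Real.log X := Real.log_pos hX1
  obtain ⟨y, hy⟩ : ∃ y : ℝ, y = (X : ℝ) ^ (min β (1 / 2)) := ⟨_, rfl⟩
  have hy2 : y ≤ (X : ℝ) ^ (1 / 2 : ℝ) := by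
    rw [hy]
    exact Real.rpow_le_rpow_of_exponent_le hX1.le (min_le_right _ _)
  have hyβ : y ≤ (X : ℝ) ^ β := by
    rw [hy]
    exact Real.rpow_le_rpow_of_exponent_le hX1.le (min_le_left _ _)
  obtain ⟨h3, h4, -, h5⟩ := H X (by omega) a b S
  rw [← hy] at h4 h5
  obtain ⟨G, hG⟩ : ∃ G : Finset ℕ, G = GoodC W Q m a b t ((A' + 3) * t) X (ε * Real.log X) y := ⟨_, rfl⟩
  obtain ⟨P, p1, p2, p3⟩ := h5 (fun n => χ (n + W * i0 W Q n))
  rw [← hG] at h4 p1 p3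
  obtain ⟨V, hV⟩ : ∃ V : ℝ, V = VL (sysA Q a) (sysB W Q a b) X := ⟨_, rfl⟩
  rw [← hV] at h3 h4 p3
  have hclu : ∀ n ∈ G, Clu (W * Q) (m + 1) ((A' + 3) * t) a b ((X : ℝ) ^ (1 / (t : ℝ))) (ε * Real.log X) y
      (n + W * i0 W Q n) ∧ X / 2 < n + W * i0 W Q n ∧ n + W * i0 W Q n ≤ X + W * Q := by
    intro n hn
    rw [hG] at hn
    exact clu_of_good S F hW hwC hw8 hy2 (by omega) hn
  obtain ⟨G1, hG1⟩ : ∃ G1 : Finset ℕ, G1 = G ∩ P.biUnion (apSet s) := ⟨_, rfl⟩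
  have hG1c : c / 2 * X * V ≤ (G1.card : ℝ) := by
    have e1 : ((G \ P.biUnion (apSet s)).card : ℝ) + G1.card = G.card := by
      rw [hG1]
      exact_mod_cast card_sdiff_add_card_inter G (P.biUnion (apSet s))
    linarith
  refine ⟨G1.image (fun n => n + W * i0 W Q n), ?_, ?_⟩
  · have e1 : G1.card ≤ Q * (G1.image (fun n => n + W * i0 W Q n)).card := by
      apply Finset.card_le_mul_card_image
      intro p _
      have e2 : (G1.filter (fun n => n + W * i0 W Q n = p)).card ≤ (range Q).card := by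
        apply Finset.card_le_card_of_injOn (fun n => i0 W Q n)
        · intro n hn
          rw [Finset.mem_coe, mem_filter, hG1, mem_inter] at hn
          rw [Finset.mem_coe, mem_range]
          have h6 := hn.1.1
          rw [hG] at h6
          unfold GoodC at h6
          rw [mem_filter] at h6
          obtain ⟨i1, hi1⟩ : ((univ : Finset (Fin Q)).filter (fun i : Fin Q => (n + W * (i : ℕ)).Prime)).Nonempty :=
            card_pos.1 (by omega)
          rw [mem_filter] at hi1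
          have hne : {i : ℕ | i < Q ∧ (n + W * i).Prime}.Nonempty := ⟨i1, i1.isLt, hi1.2⟩
          exact (Nat.sInf_mem hne).1
        · intro n hn n' hn' h
          rw [Finset.mem_coe, mem_filter] at hn hn'
          dsimp only at h
          have h7 := hn.2.trans hn'.2.symm
          rw [h] at h7
          omega
      rwa [card_range] at e2
    have e2 : (G1.card : ℝ) ≤ Q * ((G1.image (fun n => n + W * i0 W Q n)).card : ℝ) := by exact_mod_cast e1
    have e3 : c / 2 * X * (c / Real.log X ^ (g * Q)) ≤ c / 2 * X * V :=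
      mul_le_mul_of_nonneg_left h3 (by positivity)
    have e4 : c * c / (2 * Q) * X / Real.log X ^ (g * Q) = (c / 2 * X * (c / Real.log X ^ (g * Q))) / Q := by
      field_simp
    rw [e4, div_le_iff₀ hQ0]
    linarith
  · intro p hp
    rw [mem_image] at hp
    obtain ⟨n, hn, rfl⟩ := hp
    rw [hG1, mem_inter, mem_biUnion] at hn
    obtain ⟨hn1, z, hz, hnz⟩ := hn
    unfold apSet at hnz
    rw [mem_image] at hnz
    obtain ⟨j0, hj0, hj0n⟩ := hnz
    rw [mem_range] at hj0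
    obtain ⟨q1, q2, q3⟩ := p1 z hz
    have hi : ∀ j < s, i0 W Q (z.1 + j * z.2) = i0 W Q z.1 := by
      intro j hj
      obtain ⟨-, -, q4⟩ := q3 j hj
      unfold i0
      congr 1
      ext i
      constructor
      · rintro ⟨h6, h7⟩
        exact ⟨h6, (q4 ⟨i, h6⟩).1 h7⟩
      · rintro ⟨h6, h7⟩
        exact ⟨h6, (q4 ⟨i, h6⟩).2 h7⟩
    have hshift : ∀ j < s, z.1 + W * i0 W Q z.1 + j * z.2 = (z.1 + j * z.2) + W * i0 W Q (z.1 + j * z.2) := by
      intro j hj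
      rw [hi j hj]
      ring
    refine ⟨z.1 + W * i0 W Q z.1, z.2, q1, q2, ⟨j0, hj0, ?_⟩, fun j hj => ?_⟩
    · rw [hshift j0 hj0, hj0n]
    · obtain ⟨q4, q5, -⟩ := q3 j hj
      obtain ⟨-, q6, -⟩ := q3 j0 hj0
      obtain ⟨h6, h7, h8⟩ := hclu _ q4
      rw [hshift j hj]
      refine ⟨?_, h7, h8, ?_⟩
      · have h9 := clu_mono hyβ h6
        exact ⟨h9.1, (Nat.le_succ m).trans h9.2.1, h9.2.2⟩
      · rw [hj0n] at q6
        rw [q5, ← q6]

end Pool.Agent.T6.H2.CL
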